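import Pool.Agent.N889.AO.Stm

/-!
# Project AO: equivariant interpolation has rational coefficients
-/

set_option autoImplicit false
open Polynomial Matrix

namespace Pool.Agent.N866.AO

open Pool.Agent.N889.AO

section
variable {K : Type} [Field K] [NumberField K]

/-- an integral rational element is an integer -/
theorem exists_int_of_rat {x : ℚ} (hx : IsIntegral ℤ (algebraMap ℚ K x)) :
    ∃ m : ℤ, (m : ℚ) = x := by
  have h1 : IsIntegral ℤ x :=
    (isIntegral_algebraMap_iff (algebraMap ℚ K).injective).1 hx
  obtain ⟨m, hm⟩ := (IsIntegrallyClosed.isIntegral_iff (R := ℤ) (K := ℚ)).1 h1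
  exact ⟨m, by rw [← hm]; rfl⟩

variable [IsGalois ℚ K]

/-- polynomials fixed by the Galois group have rational coefficients -/
theorem lift_of_fixed {P : K[X]} (h : ∀ σ : K ≃ₐ[ℚ] K, P.map (σ : K →+* K) = P) :
    ∃ q : ℚ[X], q.map (algebraMap ℚ K) = P := by
  rw [← mem_lifts, lifts_iff_coeff_lifts]
  intro n
  rw [IsGalois.mem_range_algebraMap_iff_fixed]
  intro σ
  have h1 := congrArg (fun p : K[X] => p.coeff n) (h σ)
  simpa [coeff_map] using h1

end

theorem stmInt : StmInt := by
  classical
  intro ι _ _ K _ _ _ r t hr hst heq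
  constructor
  · -- interpolation
    set q₀ : K[X] := Lagrange.interpolate Finset.univ r (fun i => t (r i)) with hq₀
    have hinj : Set.InjOn r (Finset.univ : Finset ι) := hr.injOn
    have hval : ∀ i, eval (r i) q₀ = t (r i) := fun i =>
      Lagrange.eval_interpolate_at_node _ hinj (Finset.mem_univ i)
    have hdeg : q₀.degree < (Finset.univ : Finset ι).card := Lagrange.degree_interpolate_lt _ hinj
    obtain ⟨q, hq⟩ := lift_of_fixed (P := q₀) (by
      intro σ
      refine eq_of_degrees_lt_of_eval_index_eq Finset.univ hinj ?_ hdeg ?_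
      · exact lt_of_le_of_lt degree_map_le hdeg
      · intro i _
        obtain ⟨j, hj⟩ := hst i σ.symm
        have h1 : r i = σ (r j) := by rw [← hj, AlgEquiv.apply_symm_apply]
        have h2 : eval (σ (r j)) (q₀.map (σ : K →+* K)) = σ (eval (r j) q₀) := by
          rw [eval_map, ← RingHom.coe_coe σ, eval₂_hom]
        rw [hval i]
        conv_lhs => rw [h1]
        rw [h2, hval j, heq j σ, ← h1])
    refine ⟨q, fun i => ?_⟩
    rw [← hval i, ← hq, eval_map]
    rfl
  · intro ht
    -- the product
    set P : K[X] := ∏ i, (X - C (t (r i))) with hP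
    have hfix : ∀ σ : K ≃ₐ[ℚ] K, P.map (σ : K →+* K) = P := by
      intro σ
      choose j hj using fun i => hst i σ
      have hjinj : Function.Injective j := by
        intro a b hab
        apply hr
        apply σ.injective
        rw [hj a, hj b, hab]
      have hbij : Function.Bijective j := Finite.injective_iff_bijective.1 hjinj
      rw [hP, Polynomial.map_prod]
      have h1 : ∀ i, (X - C (t (r i))).map (σ : K →+* K) = X - C (t (r (j i))) := by
        intro i
        rw [Polynomial.map_sub, map_X, map_C, ← hj i, ← heq i σ]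
        rfl
      rw [Finset.prod_congr rfl fun i _ => h1 i]
      exact hbij.prod_comp (fun i => X - C (t (r i)))
    obtain ⟨q, hq⟩ := lift_of_fixed hfix
    -- integrality of the coefficients
    have hint : ∀ n, IsIntegral ℤ (P.coeff n) := by
      intro n
      let x : ι → NumberField.RingOfIntegers K := fun i => ⟨t (r i), (ht i).1⟩
      have h1 : P = (∏ i, (X - C (x i))).map (algebraMap (NumberField.RingOfIntegers K) K) := by
        rw [Polynomial.map_prod, hP]
        refine Finset.prod_congr rfl fun i _ => ?_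
        rw [Polynomial.map_sub, map_X, map_C]
        rfl
      rw [h1, coeff_map]
      exact NumberField.RingOfIntegers.isIntegral_coe _
    have hZ : ∀ n, ∃ m : ℤ, algebraMap ℤ K m = P.coeff n := by
      intro n
      have h1 := hint n
      rw [← hq, coeff_map] at h1 ⊢
      obtain ⟨m, hm⟩ := exists_int_of_rat h1
      refine ⟨m, ?_⟩
      rw [← hm]
      simp
    obtain ⟨p, hp⟩ : ∃ p : ℤ[X], p.map (algebraMap ℤ K) = P := by
      rw [← mem_lifts, lifts_iff_coeff_lifts]
      intro n
      obtain ⟨m, hm⟩ := hZ n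
      exact ⟨m, hm⟩
    refine ⟨p, hp, ?_, ?_⟩
    · -- the constant term
      have h0 : algebraMap ℤ K (p.coeff 0) = ∏ i, (-t (r i)) := by
        rw [← coeff_map, hp, coeff_zero_eq_eval_zero, hP, eval_prod]
        refine Finset.prod_congr rfl fun i _ => ?_
        simp
      have h1 : (algebraMap ℤ K (p.coeff 0))⁻¹ = ∏ i, (-(t (r i))⁻¹) := by
        rw [h0, ← Finset.prod_inv_distrib]
        refine Finset.prod_congr rfl fun i _ => ?_
        rw [inv_neg]
      have h2 : IsIntegral ℤ (algebraMap ℤ K (p.coeff 0))⁻¹ := by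
        rw [h1]
        exact IsIntegral.prod _ fun i _ => (ht i).2.1.neg
      have h3 : (algebraMap ℤ K (p.coeff 0))⁻¹ = algebraMap ℚ K ((p.coeff 0 : ℚ)⁻¹) := by
        rw [map_inv₀]
        congr 1
        simp
      rw [h3] at h2
      obtain ⟨m, hm⟩ := exists_int_of_rat h2
      have h4 : (p.coeff 0 : ℚ) ≠ 0 := by
        intro h5
        have h6 : p.coeff 0 = 0 := by exact_mod_cast h5
        rw [h6, map_zero] at h0
        have h7 : ∏ i, (-t (r i)) ≠ 0 :=
          Finset.prod_ne_zero_iff.2 fun i _ => neg_ne_zero.2 (ht i).2.2.1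
        exact h7 h0.symm
      have h5 : (p.coeff 0 : ℚ) * m = 1 := by
        rw [hm, mul_inv_cancel₀ h4]
      have h6 : p.coeff 0 * m = 1 := by exact_mod_cast h5
      exact Int.isUnit_iff.1 (IsUnit.of_mul_eq_one m h6)
    · intro z hz
      obtain ⟨τ⟩ : Nonempty (K →+* ℂ) := ⟨(IsAlgClosed.lift : K →ₐ[ℚ] ℂ).toRingHom⟩
      have h1 : p.map (Int.castRingHom ℂ) = P.map τ := by
        rw [← hp, Polynomial.map_map]
        congr 1
        exact RingHom.ext_int _ _
      rw [h1, IsRoot.def, hP, Polynomial.map_prod, eval_prod, Finset.prod_eq_zero_iff] at hz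
      obtain ⟨i, -, hi⟩ := hz
      rw [Polynomial.map_sub, map_X, map_C, eval_sub, eval_X, eval_C, sub_eq_zero] at hi
      rw [hi]
      exact (ht i).2.2.2 τ

end Pool.Agent.N866.AO
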