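import Pool.Agent.N889.AO.Stm

/-!
# Project AO: distinct real irrational eigenvalues give an Anosov automorphism
-/

set_option autoImplicit false
open Polynomial Matrix

namespace Pool.Agent.N866.AO

open Pool.Agent.N889.AO

theorem stmUnits (h1 : StmChr) (h2 : StmInt) (h3 : StmMorq) : StmUnits := by
  classical
  intro ι _ _ c D hD hreal hirr
  obtain ⟨ρ, hρ, hprod⟩ := hreal
  set P : ℚ[X] := D.charpoly with hP
  have hPR : P.map (algebraMap ℚ ℝ) = ∏ i, (X - C (ρ i)) := by
    rw [← hprod, hP, Matrix.charpoly_map]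
  have hsep : P.Separable := by
    rw [← separable_map (algebraMap ℚ ℝ), hPR, separable_prod_X_sub_C_iff]
    exact hρ
  have hsplR : (P.map (algebraMap ℚ ℝ)).Splits := by
    rw [hPR]
    exact Splits.prod fun i _ => Splits.X_sub_C _
  have hPR0 : P.map (algebraMap ℚ ℝ) ≠ 0 := by
    rw [hPR]
    exact Finset.prod_ne_zero_iff.2 fun i _ => X_sub_C_ne_zero _
  -- the splitting field
  let K : Type := P.SplittingField
  have hspl : IsSplittingField ℚ K P := Polynomial.IsSplittingField.splittingField P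
  have : FiniteDimensional ℚ K := Polynomial.IsSplittingField.finiteDimensional K P
  have : CharZero K := algebraRat.charZero K
  have : NumberField K := ⟨⟩
  have : IsGalois ℚ K := IsGalois.of_separable_splitting_field (p := P) hsep
  let φ' : K →ₐ[ℚ] ℝ := Polynomial.SplittingField.lift P hsplR
  let φ : K →+* ℝ := φ'
  have hφ : (P.map (algebraMap ℚ K)).map φ = P.map (algebraMap ℚ ℝ) := by
    rw [Polynomial.map_map]
    congr 1
    exact φ'.comp_algebraMap
  have hsplK : (P.map (algebraMap ℚ K)).Splits := Polynomial.SplittingField.splits P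
  have hroots : ∀ i, ∃ x : K, φ x = ρ i := by
    intro i
    have e1 : ρ i ∈ ((P.map (algebraMap ℚ K)).map φ).roots := by
      rw [hφ, mem_roots hPR0, hPR, IsRoot.def, eval_prod]
      exact Finset.prod_eq_zero (Finset.mem_univ i) (by simp)
    rw [hsplK.roots_map φ, Multiset.mem_map] at e1
    obtain ⟨x, -, hx⟩ := e1
    exact ⟨x, hx⟩
  choose r hr using hroots
  have hrinj : Function.Injective r := by
    intro a b hab
    apply hρ
    rw [← hr a, ← hr b, hab]
  have hPK : P.map (algebraMap ℚ K) = ∏ i, (X - C (r i)) := by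
    apply Polynomial.map_injective φ φ.injective
    rw [hφ, hPR, Polynomial.map_prod]
    refine Finset.prod_congr rfl fun i _ => ?_
    rw [Polynomial.map_sub, map_X, map_C, hr]
  have hroot : ∀ x : K, aeval x P = 0 → ∃ j, x = r j := by
    intro x hx
    have e1 : eval x (P.map (algebraMap ℚ K)) = 0 := by
      rw [eval_map]
      exact hx
    rw [hPK, eval_prod, Finset.prod_eq_zero_iff] at e1
    obtain ⟨j, -, hj⟩ := e1
    rw [eval_sub, eval_X, eval_C, sub_eq_zero] at hj
    exact ⟨j, hj⟩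
  have hroot' : ∀ i, aeval (r i) P = 0 := by
    intro i
    have e1 : eval (r i) (P.map (algebraMap ℚ K)) = 0 := by
      rw [hPK, eval_prod]
      exact Finset.prod_eq_zero (Finset.mem_univ i) (by simp)
    rw [eval_map] at e1
    exact e1
  have hst : ∀ i (σ : K ≃ₐ[ℚ] K), ∃ j, σ (r i) = r j := by
    intro i σ
    apply hroot
    have e1 : aeval (σ (r i)) P = σ (aeval (r i) P) := aeval_algHom_apply (σ : K →ₐ[ℚ] K) (r i) P
    rw [e1, hroot', map_zero]
  let E : Finset K := Finset.univ.image r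
  have hE : ∀ e, e ∈ E ↔ ∃ i, r i = e := by
    intro e
    simp [E]
  obtain ⟨t, ht1, ht2, ht3⟩ := h1 K φ E (by
    intro e he σ
    obtain ⟨i, rfl⟩ := (hE e).1 he
    obtain ⟨j, hj⟩ := hst i σ
    exact (hE _).2 ⟨j, hj.symm⟩) (by
    intro e he q hq
    obtain ⟨i, rfl⟩ := (hE e).1 he
    apply hirr q
    have e1 := hroot' i
    rw [hq, aeval_algebraMap_apply, map_eq_zero_iff _ (algebraMap ℚ K).injective] at e1
    rw [IsRoot.def]
    exact e1)
  have hrE : ∀ i, r i ∈ E := fun i => (hE _).2 ⟨i, rfl⟩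
  obtain ⟨⟨q, hq⟩, h5⟩ := h2 ι K r t hrinj hst (fun i σ => ht3 (r i) (hrE i) σ)
  obtain ⟨p, hp1, hp2, hp3⟩ := h5 (fun i => ht1 (r i) (hrE i))
  obtain ⟨hF1, hF2⟩ := h3 ι c D K r q hD hrinj hPK (by
    intro i j k hijk
    rw [hq, hq, hq, ← hijk]
    exact ht2 (r i) (hrE i) (r j) (hrE j) (by rw [hijk]; exact hrE k))
  refine ⟨aeval D q, hF1, p, ?_, hp2, hp3⟩
  apply Polynomial.map_injective (algebraMap ℚ K) (algebraMap ℚ K).injective
  rw [hF2, Polynomial.map_map]
  have e3 : ∏ i, (X - C (aeval (r i) q)) = ∏ i, (X - C (t (r i))) :=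
    Finset.prod_congr rfl fun i _ => by rw [hq]
  rw [e3, ← hp1]
  congr 1

end Pool.Agent.N866.AO
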